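import Mathlib

namespace Pool.Agent.Results.MP_43980c_co.TranslationsNotGroup

universe u v

/-- The number `[x,y]` of blocks incident with both points `x` and `y`. -/
noncomputable def joinCount {P : Type u} {B : Type v} (I : P → B → Prop) (x y : P) : ℕ∞ :=
  {b : B | I x b ∧ I y b}.encard

/-- The number `[b,c]` of points incident with both blocks `b` and `c`. -/
noncomputable def meetCount {P : Type u} {B : Type v} (I : P → B → Prop) (b c : B) : ℕ∞ :=
  {x : P | I x b ∧ I x c}.encard

/-- The relation `b ∼ₐ c` on blocks: for every point on one of `b`, `c` there is a point `y` on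
the other one with `[x,y] > 1`. -/
def BlockNear {P : Type u} {B : Type v} (I : P → B → Prop) (b c : B) : Prop :=
  (∀ x, I x b → ∃ y, I y c ∧ 1 < joinCount I x y) ∧
    (∀ x, I x c → ∃ y, I y b ∧ 1 < joinCount I x y)

/-- Ordinary affine planes. -/
structure IsAffinePlane {P : Type u} {B : Type v} (I : P → B → Prop) : Prop where
  join : ∀ x y : P, x ≠ y → ∃! b : B, I x b ∧ I y b
  playfair : ∀ (x : P) (b : B), ∃! c : B, I x c ∧ (c = b ∨ ∀ z, ¬ (I z b ∧ I z c))
  triangle : ∃ x y z : P, ¬ ∃ b : B, I x b ∧ I y b ∧ I z b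

/-- `(P, B, I)` with the parallelism `par` (an equivalence relation on the blocks) is an affine
Hjelmslev plane.  In the last axiom the epimorphism `(μ, ν)` is surjective on points, on blocks
and on flags. -/
structure IsAffineHjelmslevPlane {P : Type u} {B : Type v} (I : P → B → Prop)
    (par : B → B → Prop) : Prop where
  joined : ∀ x y : P, 1 ≤ joinCount I x y
  par_equiv : Equivalence par
  par_unique : ∀ (p : P) (b : B), ∃! c : B, I p c ∧ par b c
  near_blocks : ∀ b c : B, b ≠ c → BlockNear I b c → meetCount I b c ≠ 1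
  quotient : ∃ (P' : Type u) (B' : Type v) (I' : P' → B' → Prop) (μ : P → P') (ν : B → B'),
    IsAffinePlane I' ∧ Function.Surjective μ ∧ Function.Surjective ν ∧
    (∀ x b, I x b → I' (μ x) (ν b)) ∧
    (∀ x' b', I' x' b' → ∃ x b, I x b ∧ μ x = x' ∧ ν b = b') ∧
    (∀ x y, μ x = μ y ↔ 1 < joinCount I x y) ∧
    (∀ b c, ν b = ν c ↔ BlockNear I b c)

/-- The automorphism group: pairs of a permutation of the points and a permutation of the blocks
that preserve incidence in both directions. -/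
def automorphisms {P : Type u} {B : Type v} (I : P → B → Prop) :
    Subgroup (Equiv.Perm P × Equiv.Perm B) where
  carrier := {g | ∀ x b, I (g.1 x) (g.2 b) ↔ I x b}
  one_mem' := by intro x b; exact Iff.rfl
  mul_mem' := by
    intro g h hg hh x b
    exact (hg (h.1 x) (h.2 b)).trans (hh x b)
  inv_mem' := by
    intro g hg x b
    have h := hg (g.1⁻¹ x) (g.2⁻¹ b)
    simpa using h.symm

/-- The set of translations: automorphisms that map each block of some parallel class to itself
and that are the identity or fix no point. -/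
def translations {P : Type u} {B : Type v} (I : P → B → Prop) (par : B → B → Prop) :
    Set (automorphisms I) :=
  {g | (∃ b : B, ∀ c : B, par b c → g.1.2 c = c) ∧ (g = 1 ∨ ∀ x : P, g.1.1 x ≠ x)}

/-- Dilatations: automorphisms that map every block to a parallel one. -/
def IsDilatation {P : Type u} {B : Type v} {I : P → B → Prop} (par : B → B → Prop)
    (g : automorphisms I) : Prop :=
  ∀ b : B, par b (g.1.2 b)

/-- The field with three elements. -/
abbrev K : Type := ZMod 3

/-- Points `(x₀, x₁, y₀, y₁)`, to be thought of as `(x₀ + ε x₁, y₀ + ε y₁)` with `ε² = 0`. -/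
abbrev Pt : Type := K × K × K × K

/-- Blocks: `inl (m₀, m₁, b₀, b₁)` is the line `y = (m₀ + ε m₁) x + (b₀ + ε b₁)` and
`inr (m₁, b₀, b₁)` is the line `x = ε m₁ y + (b₀ + ε b₁)`. -/
abbrev Bl : Type := (K × K × K × K) ⊕ (K × K × K)

/-- Incidence in the affine plane over the dual numbers of `K`. -/
def Inc : Pt → Bl → Prop
  | (x0, x1, y0, y1), Sum.inl (m0, m1, b0, b1) => y0 = m0 * x0 + b0 ∧ y1 = m0 * x1 + m1 * x0 + b1
  | (x0, x1, y0, _), Sum.inr (m1, b0, b1) => x0 = b0 ∧ x1 = m1 * y0 + b1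

/-- The label of the parallel class of a block.  It is the slope, except that for a slope `ε m₁`
the sign of `m₁` is changed on the blocks with `b₀ ≠ 0`. -/
def dir : Bl → (K × K) ⊕ K
  | Sum.inl (m0, m1, b0, _) => Sum.inl (m0, if m0 = 0 ∧ b0 ≠ 0 then -m1 else m1)
  | Sum.inr (m1, _, _) => Sum.inr m1

/-- The parallelism. -/
def par (b c : Bl) : Prop := dir b = dir c

instance : Fact (Nat.Prime 3) := ⟨by norm_num⟩

lemma one_lt_encard_iff' {α : Type*} (s : Set α) :
    1 < s.encard ↔ ∃ a ∈ s, ∃ b ∈ s, a ≠ b := by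
  rw [Set.one_lt_encard_iff]
  constructor
  · rintro ⟨a, b, ha, hb, hab⟩; exact ⟨a, ha, b, hb, hab⟩
  · rintro ⟨a, ha, b, hb, hab⟩; exact ⟨a, b, ha, hb, hab⟩

/-- Two points are on more than one common block iff they agree modulo `ε`. -/
lemma near_iff (x0 x1 y0 y1 z0 z1 w0 w1 : K) :
    1 < joinCount Inc (x0, x1, y0, y1) (z0, z1, w0, w1) ↔ x0 = z0 ∧ y0 = w0 := by
  unfold joinCount
  rw [one_lt_encard_iff']
  constructor
  · rintro ⟨a, ⟨ha1, ha2⟩, b, ⟨hb1, hb2⟩, hab⟩
    by_contra hcon
    apply hab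
    rcases a with ⟨m0, m1, b0, b1⟩ | ⟨m1, b0, b1⟩ <;>
      rcases b with ⟨n0, n1, c0, c1⟩ | ⟨n1, c0, c1⟩ <;>
      simp only [Inc] at ha1 ha2 hb1 hb2
    · obtain ⟨h1, h2⟩ := ha1
      obtain ⟨h3, h4⟩ := ha2
      obtain ⟨h5, h6⟩ := hb1
      obtain ⟨h7, h8⟩ := hb2
      have hx : x0 - z0 ≠ 0 := by
        intro h
        apply hcon
        have hx0 : x0 = z0 := sub_eq_zero.mp h
        refine ⟨hx0, ?_⟩
        rw [h1, h3, hx0]
      have hm0 : m0 = n0 := by
        have : (m0 - n0) * (x0 - z0) = 0 := by linear_combination h5 - h1 + h3 - h7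
        rcases mul_eq_zero.mp this with h | h
        · exact sub_eq_zero.mp h
        · exact absurd h hx
      subst hm0
      have hb0 : b0 = c0 := by linear_combination h5 - h1
      have hm1 : m1 = n1 := by
        have : (m1 - n1) * (x0 - z0) = 0 := by linear_combination h6 - h2 + h4 - h8
        rcases mul_eq_zero.mp this with h | h
        · exact sub_eq_zero.mp h
        · exact absurd h hx
      subst hm1
      have hb1 : b1 = c1 := by linear_combination h6 - h2
      rw [hb0, hb1]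
    · exact absurd ⟨hb1.1.trans hb2.1.symm, by rw [ha1.1, ha2.1, hb1.1, hb2.1]⟩ hcon
    · exact absurd ⟨ha1.1.trans ha2.1.symm, by rw [hb1.1, hb2.1, ha1.1, ha2.1]⟩ hcon
    · obtain ⟨h1, h2⟩ := ha1
      obtain ⟨h3, h4⟩ := ha2
      obtain ⟨h5, h6⟩ := hb1
      obtain ⟨h7, h8⟩ := hb2
      have hy : y0 - w0 ≠ 0 := by
        intro h
        apply hcon
        exact ⟨h1.trans h3.symm, sub_eq_zero.mp h⟩
      have hm1 : m1 = n1 := by
        have : (m1 - n1) * (y0 - w0) = 0 := by linear_combination h6 - h2 + h4 - h8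
        rcases mul_eq_zero.mp this with h | h
        · exact sub_eq_zero.mp h
        · exact absurd h hy
      subst hm1
      have hb1 : b1 = c1 := by linear_combination h6 - h2
      rw [hb1, ← h1, ← h5]
  · rintro ⟨rfl, rfl⟩
    by_cases hx : x1 = z1
    · subst hx
      refine ⟨Sum.inr (0, x0, x1), ⟨?_, ?_⟩, Sum.inr (1, x0, x1 - y0), ⟨?_, ?_⟩, ?_⟩
      · simp [Inc]
      · simp [Inc]
      · simp [Inc]
      · simp [Inc]
      · intro h
        simp at h
    · have hx' : x1 - z1 ≠ 0 := sub_ne_zero.mpr hx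
      set m := (y1 - w1) / (x1 - z1) with hm
      have hm' : m * (x1 - z1) = y1 - w1 := by
        rw [hm]; exact div_mul_cancel₀ _ hx'
      refine ⟨Sum.inl (m, 0, y0 - m * x0, y1 - m * x1), ⟨?_, ?_⟩,
        Sum.inl (m, 1, y0 - m * x0, y1 - m * x1 - x0), ⟨?_, ?_⟩, ?_⟩
      · simp [Inc]
      · simp only [Inc]
        exact ⟨by ring, by linear_combination hm'⟩
      · simp only [Inc]
        exact ⟨by ring, by ring⟩
      · simp only [Inc]
        exact ⟨by ring, by linear_combination hm'⟩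
      · intro h
        simp at h

/-- Any two points are on a common block. -/
lemma joined (x y : Pt) : 1 ≤ joinCount Inc x y := by
  obtain ⟨x0, x1, y0, y1⟩ := x
  obtain ⟨z0, z1, w0, w1⟩ := y
  by_cases h : x0 = z0 ∧ y0 = w0
  · exact ((near_iff x0 x1 y0 y1 z0 z1 w0 w1).mpr h).le
  · unfold joinCount
    rw [Set.one_le_encard_iff_nonempty]
    by_cases hx : x0 = z0
    · have hy : y0 - w0 ≠ 0 := fun h' => h ⟨hx, sub_eq_zero.mp h'⟩
      subst hx
      have hm : (x1 - z1) / (y0 - w0) * (y0 - w0) = x1 - z1 := div_mul_cancel₀ _ hy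
      refine ⟨Sum.inr ((x1 - z1) / (y0 - w0), x0, x1 - (x1 - z1) / (y0 - w0) * y0), ?_, ?_⟩
      · simp only [Inc]
        exact ⟨trivial, by ring⟩
      · simp only [Inc]
        exact ⟨trivial, by linear_combination hm⟩
    · have hx' : x0 - z0 ≠ 0 := sub_ne_zero.mpr hx
      set m := (y0 - w0) / (x0 - z0) with hm
      have hm' : m * (x0 - z0) = y0 - w0 := by
        rw [hm]; exact div_mul_cancel₀ _ hx'
      set n := (y1 - w1 - m * (x1 - z1)) / (x0 - z0) with hn
      have hn' : n * (x0 - z0) = y1 - w1 - m * (x1 - z1) := by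
        rw [hn]; exact div_mul_cancel₀ _ hx'
      refine ⟨Sum.inl (m, n, y0 - m * x0, y1 - m * x1 - n * x0), ?_, ?_⟩
      · simp only [Inc]
        exact ⟨by ring, by ring⟩
      · simp only [Inc]
        exact ⟨by linear_combination hm', by linear_combination hm' * 0 + hn'⟩

/-- Incidence in the ordinary affine plane over `K`. -/
def Inc' : K × K → (K × K) ⊕ K → Prop
  | (x, y), Sum.inl (m, b) => y = m * x + b
  | (x, _), Sum.inr b => x = b

/-- Reduction of points modulo `ε`. -/
def redPt : Pt → K × K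
  | (x0, _, y0, _) => (x0, y0)

/-- Reduction of blocks modulo `ε`. -/
def redBl : Bl → (K × K) ⊕ K
  | Sum.inl (m0, _, b0, _) => Sum.inl (m0, b0)
  | Sum.inr (_, b0, _) => Sum.inr b0

lemma blockNear_iff (b c : Bl) : redBl b = redBl c ↔ BlockNear Inc b c := by
  constructor
  · intro h
    rcases b with ⟨m0, m1, b0, b1⟩ | ⟨m1, b0, b1⟩ <;>
      rcases c with ⟨n0, n1, c0, c1⟩ | ⟨n1, c0, c1⟩ <;>
      simp only [redBl, Sum.inl.injEq, Sum.inr.injEq, Prod.mk.injEq, reduceCtorEq] at h
    · obtain ⟨rfl, rfl⟩ := h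
      constructor
      · rintro ⟨x0, x1, y0, y1⟩ hx
        simp only [Inc] at hx
        refine ⟨(x0, 0, y0, n1 * x0 + c1), ?_, ?_⟩
        · simp only [Inc]
          exact ⟨hx.1, by ring⟩
        · rw [near_iff]
          exact ⟨rfl, rfl⟩
      · rintro ⟨x0, x1, y0, y1⟩ hx
        simp only [Inc] at hx
        refine ⟨(x0, 0, y0, m1 * x0 + b1), ?_, ?_⟩
        · simp only [Inc]
          exact ⟨hx.1, by ring⟩
        · rw [near_iff]
          exact ⟨rfl, rfl⟩
    · subst h
      constructor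
      · rintro ⟨x0, x1, y0, y1⟩ hx
        simp only [Inc] at hx
        refine ⟨(x0, n1 * y0 + c1, y0, 0), ?_, ?_⟩
        · simp only [Inc]
          exact ⟨hx.1, trivial⟩
        · rw [near_iff]
          exact ⟨rfl, rfl⟩
      · rintro ⟨x0, x1, y0, y1⟩ hx
        simp only [Inc] at hx
        refine ⟨(x0, m1 * y0 + b1, y0, 0), ?_, ?_⟩
        · simp only [Inc]
          exact ⟨hx.1, trivial⟩
        · rw [near_iff]
          exact ⟨rfl, rfl⟩
  · rintro ⟨h1, h2⟩
    rcases b with ⟨m0, m1, b0, b1⟩ | ⟨m1, b0, b1⟩ <;>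
      rcases c with ⟨n0, n1, c0, c1⟩ | ⟨n1, c0, c1⟩
    · obtain ⟨⟨x0, x1, y0, y1⟩, hy, hn⟩ := h1 (0, 0, b0, b1) (by simp [Inc])
      obtain ⟨⟨z0, z1, w0, w1⟩, hz, hn'⟩ := h1 (1, 0, m0 + b0, m1 + b1) (by simp [Inc])
      rw [near_iff] at hn hn'
      simp only [Inc] at hy hz
      have hb : b0 = c0 := by
        rw [hn.2, hy.1, ← hn.1]; ring
      have hm : m0 = n0 := by
        have := hn'.2
        rw [hz.1, ← hn'.1, hb] at this
        linear_combination this
      simp only [redBl, hb, hm]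
    · obtain ⟨⟨x0, x1, y0, y1⟩, hy, hn⟩ := h1 (0, 0, b0, b1) (by simp [Inc])
      obtain ⟨⟨z0, z1, w0, w1⟩, hz, hn'⟩ := h1 (1, 0, m0 + b0, m1 + b1) (by simp [Inc])
      rw [near_iff] at hn hn'
      simp only [Inc] at hy hz
      have : (0 : K) = 1 := by
        rw [hn.1, hy.1, hn'.1, hz.1]
      exact absurd this (by decide)
    · obtain ⟨⟨x0, x1, y0, y1⟩, hy, hn⟩ := h2 (0, 0, c0, c1) (by simp [Inc])
      obtain ⟨⟨z0, z1, w0, w1⟩, hz, hn'⟩ := h2 (1, 0, n0 + c0, n1 + c1) (by simp [Inc])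
      rw [near_iff] at hn hn'
      simp only [Inc] at hy hz
      have : (0 : K) = 1 := by
        rw [hn.1, hy.1, hn'.1, hz.1]
      exact absurd this (by decide)
    · obtain ⟨⟨x0, x1, y0, y1⟩, hy, hn⟩ := h1 (b0, b1, 0, 0) (by simp [Inc])
      rw [near_iff] at hn
      simp only [Inc] at hy
      simp only [redBl, hn.1, hy.1]

lemma near_blocks (b c : Bl) (h : BlockNear Inc b c) : meetCount Inc b c ≠ 1 := by
  rw [← blockNear_iff] at h
  unfold meetCount
  intro hone
  rw [Set.encard_eq_one] at hone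
  obtain ⟨⟨x0, x1, y0, y1⟩, hx⟩ := hone
  have hmem : ((x0, x1, y0, y1) : Pt) ∈ {x : Pt | Inc x b ∧ Inc x c} := by
    rw [hx]; rfl
  have huniq : ∀ z : Pt, Inc z b → Inc z c → z = (x0, x1, y0, y1) := by
    intro z hz1 hz2
    have : z ∈ {x : Pt | Inc x b ∧ Inc x c} := ⟨hz1, hz2⟩
    rw [hx] at this
    exact this
  obtain ⟨hb, hc⟩ := hmem
  rcases b with ⟨m0, m1, b0, b1⟩ | ⟨m1, b0, b1⟩ <;>
      rcases c with ⟨n0, n1, c0, c1⟩ | ⟨n1, c0, c1⟩ <;>
      simp only [redBl, Sum.inl.injEq, Sum.inr.injEq, Prod.mk.injEq, reduceCtorEq] at h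
  · obtain ⟨rfl, rfl⟩ := h
    simp only [Inc] at hb hc
    have := huniq (x0, x1 + 1, y0, y1 + m0)
      (by simp only [Inc]; exact ⟨hb.1, by rw [hb.2]; ring⟩)
      (by simp only [Inc]; exact ⟨hc.1, by rw [hc.2]; ring⟩)
    simp at this
  · subst h
    simp only [Inc] at hb hc
    have := huniq (x0, x1, y0, y1 + 1)
      (by simp only [Inc]; exact ⟨hb.1, hb.2⟩)
      (by simp only [Inc]; exact ⟨hc.1, hc.2⟩)
    simp at this

lemma par_unique (p : Pt) (b : Bl) : ∃! c : Bl, Inc p c ∧ par b c := by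
  obtain ⟨x0, x1, y0, y1⟩ := p
  rcases b with ⟨m0, m1, b0, b1⟩ | ⟨m1, b0, b1⟩
  · set s : K := if m0 = 0 ∧ b0 ≠ 0 then -m1 else m1 with hs
    set t : K := if m0 = 0 ∧ y0 - m0 * x0 ≠ 0 then -s else s with ht
    have hneg : (if m0 = 0 ∧ y0 - m0 * x0 ≠ 0 then -t else t) = s := by
      rw [ht]
      split_ifs <;> simp
    refine ⟨Sum.inl (m0, t, y0 - m0 * x0, y1 - m0 * x1 - t * x0), ⟨?_, ?_⟩, ?_⟩
    · simp only [Inc]
      exact ⟨by ring, by ring⟩
    · simp only [par, dir]
      rw [hneg]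
    · rintro c ⟨hc, hp⟩
      rcases c with ⟨n0, n1, c0, c1⟩ | ⟨n1, c0, c1⟩
      · simp only [Inc] at hc
        simp only [par, dir, Sum.inl.injEq, Prod.mk.injEq] at hp
        obtain ⟨rfl, hp⟩ := hp
        have hc0 : c0 = y0 - m0 * x0 := by linear_combination -hc.1
        rw [hc0] at hp
        have hn1 : n1 = t := by
          rw [ht, hs, hp]
          split_ifs <;> simp
        rw [hn1] at hc ⊢
        have hc1 : c1 = y1 - m0 * x1 - t * x0 := by linear_combination -hc.2
        rw [hc0, hc1]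
      · simp [par, dir] at hp
  · refine ⟨Sum.inr (m1, x0, x1 - m1 * y0), ⟨?_, ?_⟩, ?_⟩
    · simp only [Inc]
      exact ⟨trivial, by ring⟩
    · simp only [par, dir]
    · rintro c ⟨hc, hp⟩
      rcases c with ⟨n0, n1, c0, c1⟩ | ⟨n1, c0, c1⟩
      · simp [par, dir] at hp
      · simp only [Inc] at hc
        simp only [par, dir, Sum.inr.injEq] at hp
        subst hp
        rw [← hc.1]
        have hc1 : c1 = x1 - m1 * y0 := by linear_combination -hc.2
        rw [hc1]

lemma affine' : IsAffinePlane Inc' where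
  join := by
    rintro ⟨x, y⟩ ⟨z, w⟩ hne
    by_cases hx : x = z
    · subst hx
      have hy : y ≠ w := fun h => hne (by rw [h])
      refine ⟨Sum.inr x, ⟨rfl, rfl⟩, ?_⟩
      rintro (⟨m, b⟩ | b) ⟨h1, h2⟩
      · simp only [Inc'] at h1 h2
        exact absurd (h1.trans h2.symm) hy
      · simp only [Inc'] at h1
        rw [h1]
    · have hx' : x - z ≠ 0 := sub_ne_zero.mpr hx
      set m := (y - w) / (x - z) with hm
      have hm' : m * (x - z) = y - w := by
        rw [hm]; exact div_mul_cancel₀ _ hx'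
      refine ⟨Sum.inl (m, y - m * x), ⟨?_, ?_⟩, ?_⟩
      · simp only [Inc']; ring
      · simp only [Inc']; linear_combination hm'
      · rintro (⟨n, b⟩ | b) ⟨h1, h2⟩
        · simp only [Inc'] at h1 h2
          have hn : n = m := by
            have : (n - m) * (x - z) = 0 := by linear_combination h2 - h1 - hm'
            rcases mul_eq_zero.mp this with h | h
            · exact sub_eq_zero.mp h
            · exact absurd h hx'
          rw [hn] at h1 ⊢
          have hb : b = y - m * x := by linear_combination -h1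
          rw [hb]
        · simp only [Inc'] at h1 h2
          exact absurd (h1.trans h2.symm) hx
  playfair := by
    rintro ⟨x, y⟩ (⟨m, b⟩ | b)
    · refine ⟨Sum.inl (m, y - m * x), ⟨by simp only [Inc']; ring, ?_⟩, ?_⟩
      · by_cases h : y - m * x = b
        · left; rw [h]
        · right
          rintro ⟨z, w⟩ ⟨h1, h2⟩
          simp only [Inc'] at h1 h2
          apply h
          linear_combination h1 - h2
      · rintro (⟨n, c⟩ | c) ⟨h1, h2⟩
        · simp only [Inc'] at h1
          rcases h2 with h2 | h2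
          · simp only [Sum.inl.injEq, Prod.mk.injEq] at h2
            rw [h2.1] at h1 ⊢
            have : c = y - m * x := by linear_combination -h1
            rw [this]
          · have hn : n = m := by
              by_contra hnm
              have hnm' : m - n ≠ 0 := fun h => hnm (sub_eq_zero.mp h).symm
              have hz : (c - b) / (m - n) * (m - n) = c - b := div_mul_cancel₀ _ hnm'
              apply h2 ((c - b) / (m - n), m * ((c - b) / (m - n)) + b)
              simp only [Inc']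
              exact ⟨trivial, by linear_combination hz⟩
            rw [hn] at h1 ⊢
            have : c = y - m * x := by linear_combination -h1
            rw [this]
        · rcases h2 with h2 | h2
          · simp at h2
          · exfalso
            apply h2 (c, m * c + b)
            simp [Inc']
    · refine ⟨Sum.inr x, ⟨rfl, ?_⟩, ?_⟩
      · by_cases h : x = b
        · left; rw [h]
        · right
          rintro ⟨z, w⟩ ⟨h1, h2⟩
          simp only [Inc'] at h1 h2
          exact h (h2.symm.trans h1)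
      · rintro (⟨n, c⟩ | c) ⟨h1, h2⟩
        · rcases h2 with h2 | h2
          · simp at h2
          · exfalso
            apply h2 (b, n * b + c)
            simp [Inc']
        · simp only [Inc'] at h1
          rw [h1]
  triangle := by
    refine ⟨(0, 0), (1, 0), (0, 1), ?_⟩
    rintro ⟨(⟨m, b⟩ | b), h1, h2, h3⟩
    · simp only [Inc'] at h1 h3
      have : (1 : K) = 0 := by rw [h3]; exact h1.symm
      exact absurd this (by decide)
    · simp only [Inc'] at h1 h2
      have : (1 : K) = 0 := by rw [h2]; exact h1.symm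
      exact absurd this (by decide)

lemma isAffineHjelmslevPlane : IsAffineHjelmslevPlane Inc par where
  joined := joined
  par_equiv := ⟨fun _ => rfl, fun h => h.symm, fun h1 h2 => h1.trans h2⟩
  par_unique := par_unique
  near_blocks := fun b c _ h => near_blocks b c h
  quotient := by
    refine ⟨K × K, (K × K) ⊕ K, Inc', redPt, redBl, affine', ?_, ?_, ?_, ?_, ?_, blockNear_iff⟩
    · rintro ⟨x, y⟩
      exact ⟨(x, 0, y, 0), rfl⟩
    · rintro (⟨m, b⟩ | b)
      · exact ⟨Sum.inl (m, 0, b, 0), rfl⟩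
      · exact ⟨Sum.inr (0, b, 0), rfl⟩
    · rintro ⟨x0, x1, y0, y1⟩ (⟨m0, m1, b0, b1⟩ | ⟨m1, b0, b1⟩) h
      · exact h.1
      · exact h.1
    · rintro ⟨x, y⟩ (⟨m, b⟩ | b) h
      · refine ⟨(x, 0, y, 0), Sum.inl (m, 0, b, 0), ?_, rfl, rfl⟩
        simp only [Inc'] at h
        simp only [Inc]
        exact ⟨h, by ring⟩
      · refine ⟨(x, 0, y, 0), Sum.inr (0, b, 0), ?_, rfl, rfl⟩
        simp only [Inc'] at h
        simp only [Inc]
        exact ⟨h, by ring⟩
    · rintro ⟨x0, x1, y0, y1⟩ ⟨z0, z1, w0, w1⟩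
      rw [near_iff]
      simp only [redPt, Prod.mk.injEq]

/-- The map `(x, y) ↦ (x + 1, y)` on points. -/
def sigmaPt : Equiv.Perm Pt where
  toFun := fun (x0, x1, y0, y1) => (x0 + 1, x1, y0, y1)
  invFun := fun (x0, x1, y0, y1) => (x0 - 1, x1, y0, y1)
  left_inv := by rintro ⟨x0, x1, y0, y1⟩; simp
  right_inv := by rintro ⟨x0, x1, y0, y1⟩; simp

/-- The map `(x, y) ↦ (x + 1, y)` on blocks. -/
def sigmaBl : Equiv.Perm Bl where
  toFun := fun b => match b with
    | Sum.inl (m0, m1, b0, b1) => Sum.inl (m0, m1, b0 - m0, b1 - m1)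
    | Sum.inr (m1, b0, b1) => Sum.inr (m1, b0 + 1, b1)
  invFun := fun b => match b with
    | Sum.inl (m0, m1, b0, b1) => Sum.inl (m0, m1, b0 + m0, b1 + m1)
    | Sum.inr (m1, b0, b1) => Sum.inr (m1, b0 - 1, b1)
  left_inv := by rintro (⟨m0, m1, b0, b1⟩ | ⟨m1, b0, b1⟩) <;> simp
  right_inv := by rintro (⟨m0, m1, b0, b1⟩ | ⟨m1, b0, b1⟩) <;> simp

/-- The map `(x, y) ↦ (x, y + ε)` on points. -/
def tauPt : Equiv.Perm Pt where
  toFun := fun (x0, x1, y0, y1) => (x0, x1, y0, y1 + 1)
  invFun := fun (x0, x1, y0, y1) => (x0, x1, y0, y1 - 1)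
  left_inv := by rintro ⟨x0, x1, y0, y1⟩; simp
  right_inv := by rintro ⟨x0, x1, y0, y1⟩; simp

/-- The map `(x, y) ↦ (x, y + ε)` on blocks. -/
def tauBl : Equiv.Perm Bl where
  toFun := fun b => match b with
    | Sum.inl (m0, m1, b0, b1) => Sum.inl (m0, m1, b0, b1 + 1)
    | Sum.inr (m1, b0, b1) => Sum.inr (m1, b0, b1)
  invFun := fun b => match b with
    | Sum.inl (m0, m1, b0, b1) => Sum.inl (m0, m1, b0, b1 - 1)
    | Sum.inr (m1, b0, b1) => Sum.inr (m1, b0, b1)
  left_inv := by rintro (⟨m0, m1, b0, b1⟩ | ⟨m1, b0, b1⟩) <;> simp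
  right_inv := by rintro (⟨m0, m1, b0, b1⟩ | ⟨m1, b0, b1⟩) <;> simp

/-- The automorphism `(x, y) ↦ (x + 1, y)`. -/
def sigma : automorphisms Inc :=
  ⟨(sigmaPt, sigmaBl), by
    rintro ⟨x0, x1, y0, y1⟩ (⟨m0, m1, b0, b1⟩ | ⟨m1, b0, b1⟩)
    · simp only [sigmaPt, sigmaBl, Equiv.coe_fn_mk, Inc]
      constructor
      · rintro ⟨h1, h2⟩
        exact ⟨by linear_combination h1, by linear_combination h2⟩
      · rintro ⟨h1, h2⟩
        exact ⟨by linear_combination h1, by linear_combination h2⟩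
    · simp only [sigmaPt, sigmaBl, Equiv.coe_fn_mk, Inc]
      constructor
      · rintro ⟨h1, h2⟩
        exact ⟨by linear_combination h1, h2⟩
      · rintro ⟨h1, h2⟩
        exact ⟨by linear_combination h1, h2⟩⟩

/-- The automorphism `(x, y) ↦ (x, y + ε)`. -/
def tau : automorphisms Inc :=
  ⟨(tauPt, tauBl), by
    rintro ⟨x0, x1, y0, y1⟩ (⟨m0, m1, b0, b1⟩ | ⟨m1, b0, b1⟩)
    · simp only [tauPt, tauBl, Equiv.coe_fn_mk, Inc]
      constructor
      · rintro ⟨h1, h2⟩
        exact ⟨h1, by linear_combination h2⟩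
      · rintro ⟨h1, h2⟩
        exact ⟨h1, by linear_combination h2⟩
    · simp only [tauPt, tauBl, Equiv.coe_fn_mk, Inc]⟩

lemma sigma_dil : IsDilatation par sigma := by
  rintro (⟨m0, m1, b0, b1⟩ | ⟨m1, b0, b1⟩)
  · show dir (Sum.inl (m0, m1, b0, b1)) = dir (Sum.inl (m0, m1, b0 - m0, b1 - m1))
    simp only [dir]
    by_cases h : m0 = 0
    · subst h; simp
    · simp [h]
  · rfl

lemma tau_dil : IsDilatation par tau := by
  rintro (⟨m0, m1, b0, b1⟩ | ⟨m1, b0, b1⟩)
  · rfl
  · rfl

lemma sigma_trans : sigma ∈ translations Inc par := by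
  refine ⟨⟨Sum.inl (0, 0, 0, 0), ?_⟩, Or.inr ?_⟩
  · rintro (⟨m0, m1, b0, b1⟩ | ⟨m1, b0, b1⟩) h
    · simp only [par, dir, Sum.inl.injEq, Prod.mk.injEq] at h
      obtain ⟨rfl, h⟩ := h
      have hm1 : m1 = 0 := by
        by_cases hb : b0 = 0
        · simp [hb] at h; exact h.symm
        · simp [hb] at h; exact h
      subst hm1
      show (Sum.inl (0, 0, b0 - 0, b1 - 0) : Bl) = Sum.inl (0, 0, b0, b1)
      simp
    · simp [par, dir] at h
  · rintro ⟨x0, x1, y0, y1⟩ h
    have : x0 + 1 = x0 := congrArg Prod.fst h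
    simp at this

lemma tau_trans : tau ∈ translations Inc par := by
  refine ⟨⟨Sum.inr (0, 0, 0), ?_⟩, Or.inr ?_⟩
  · rintro (⟨m0, m1, b0, b1⟩ | ⟨m1, b0, b1⟩) h
    · simp [par, dir] at h
    · rfl
  · rintro ⟨x0, x1, y0, y1⟩ h
    have : y1 + 1 = y1 := congrArg (fun p : Pt => p.2.2.2) h
    simp at this

lemma not_fixed (m0 m1 b0 b1 : K) (h : (sigma * tau).1.2 (Sum.inl (m0, m1, b0, b1))
    = Sum.inl (m0, m1, b0, b1)) : m0 = 0 ∧ m1 = 1 := by
  have h' : (Sum.inl (m0, m1, b0 - m0, b1 + 1 - m1) : Bl) = Sum.inl (m0, m1, b0, b1) := h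
  simp only [Sum.inl.injEq, Prod.mk.injEq, true_and] at h'
  obtain ⟨h1, h2⟩ := h'
  exact ⟨by linear_combination -h1, by linear_combination -h2⟩

lemma comp_not_trans : sigma * tau ∉ translations Inc par := by
  rintro ⟨⟨b, hb⟩, _⟩
  rcases b with ⟨m0, m1, b0, b1⟩ | ⟨m1, b0, b1⟩
  · obtain ⟨rfl, rfl⟩ := not_fixed m0 m1 b0 b1 (hb _ rfl)
    by_cases h0 : b0 = 0
    · have hpar : par (Sum.inl (0, 1, b0, b1)) (Sum.inl (0, -1, 1, 0)) := by
        subst h0
        simp [par, dir]
      have := (not_fixed _ _ _ _ (hb _ hpar)).2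
      exact absurd this (by decide)
    · have hpar : par (Sum.inl (0, 1, b0, b1)) (Sum.inl (0, -1, 0, 0)) := by
        simp [par, dir, h0]
      have := (not_fixed _ _ _ _ (hb _ hpar)).2
      exact absurd this (by decide)
  · have h := hb (Sum.inr (m1, b0, b1)) rfl
    have h' : (Sum.inr (m1, b0 + 1, b1) : Bl) = Sum.inr (m1, b0, b1) := h
    simp at h'

/-- There is a (finite) affine Hjelmslev plane whose translations do not form a group: there are
two translations, which moreover map every block to a parallel one, whose composite is not a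
translation. -/
theorem result :
    ∃ (P B : Type) (_ : Finite P) (_ : Finite B) (I : P → B → Prop) (par : B → B → Prop),
      IsAffineHjelmslevPlane I par ∧
      (∃ σ ∈ translations I par, ∃ τ ∈ translations I par,
        IsDilatation par σ ∧ IsDilatation par τ ∧ σ * τ ∉ translations I par) ∧
      ¬ ∃ H : Subgroup (automorphisms I), (H : Set (automorphisms I)) = translations I par := by
  refine ⟨Pt, Bl, inferInstance, inferInstance, Inc, par, isAffineHjelmslevPlane,
    ⟨sigma, sigma_trans, tau, tau_trans, sigma_dil, tau_dil, comp_not_trans⟩, ?_⟩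
  rintro ⟨H, hH⟩
  have h1 : sigma ∈ H := by
    show sigma ∈ (H : Set (automorphisms Inc)); rw [hH]; exact sigma_trans
  have h2 : tau ∈ H := by
    show tau ∈ (H : Set (automorphisms Inc)); rw [hH]; exact tau_trans
  have h3 : sigma * tau ∈ (H : Set (automorphisms Inc)) := H.mul_mem h1 h2
  rw [hH] at h3
  exact comp_not_trans h3

end Pool.Agent.Results.MP_43980c_co.TranslationsNotGroup
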